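import Pool.Agent.Work.MP_77c57a_h26.Defs
import Pool.Agent.Work.PNT70.PNT

/-!
# MP_77c57a_nt: block AP2 (many primes congruent to 2 modulo 3)
-/

set_option autoImplicit false

namespace Pool.Agent.Work.MP_77c57a_h26

namespace AP2

open Filter Topology Finset ArithmeticFunction

/-- the upper bound for the sum of the von Mangoldt function over a residue class -/
theorem upper (T : ℕ) (hT : 1 ≤ T) :
    (∑ k ∈ Finset.Icc 1 T, vonMangoldt.residueClass (2 : ZMod 3) k) ≤
      (((Finset.Icc 1 T).filter (fun p => p.Prime ∧ p % 3 = 2)).card : ℝ) * Real.log T +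
        2 * Real.sqrt T * Real.log T := by
  have hT1 : (1 : ℝ) ≤ T := by exact_mod_cast hT
  have h1 := Chebyshev.psi_sub_theta_le hT1
  rw [Chebyshev.psi_sub_theta_eq_sum_not_prime, Nat.floor_natCast] at h1
  have h2 : (((Finset.Icc 1 T).filter (fun p => p.Prime ∧ p % 3 = 2)).card : ℝ) * Real.log T =
      ∑ k ∈ Finset.Icc 1 T, (if k.Prime ∧ k % 3 = 2 then Real.log T else 0) := by
    rw [← Finset.sum_filter, Finset.sum_const, nsmul_eq_mul]
  have h3 : ∑ n ∈ Finset.Ioc 0 T with ¬ n.Prime, vonMangoldt n =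
      ∑ k ∈ Finset.Icc 1 T, (if ¬ k.Prime then vonMangoldt k else 0) := by
    rw [Finset.sum_filter]
    rfl
  have h4 : (∑ k ∈ Finset.Icc 1 T, vonMangoldt.residueClass (2 : ZMod 3) k) ≤
      ∑ k ∈ Finset.Icc 1 T, ((if k.Prime ∧ k % 3 = 2 then Real.log T else 0) +
        (if ¬ k.Prime then vonMangoldt k else 0)) := by
    apply Finset.sum_le_sum
    intro k hk
    rw [Finset.mem_Icc] at hk
    by_cases hp : k.Prime
    · by_cases hm : (k : ZMod 3) = 2
      · have hk3 : k % 3 = 2 := by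
          have e : ((k : ℕ) : ZMod 3) = ((2 : ℕ) : ZMod 3) := by rw [hm]; rfl
          rw [ZMod.natCast_eq_natCast_iff'] at e
          simpa using e
        rw [if_pos ⟨hp, hk3⟩, if_neg (not_not.2 hp), add_zero]
        refine (vonMangoldt.residueClass_le _ _).trans ?_
        rw [vonMangoldt_apply_prime hp]
        apply Real.log_le_log
        · exact_mod_cast hp.pos
        · exact_mod_cast hk.2
      · have h0 : vonMangoldt.residueClass (2 : ZMod 3) k = 0 := by
          unfold vonMangoldt.residueClass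
          rw [Set.indicator_of_notMem]
          exact hm
        rw [h0]
        have hl : 0 ≤ Real.log T := Real.log_nonneg hT1
        split_ifs <;> simp [hl]
    · rw [if_pos hp]
      have hl : 0 ≤ Real.log T := Real.log_nonneg hT1
      have h5 := vonMangoldt.residueClass_le (2 : ZMod 3) k
      have h6 : 0 ≤ (if k.Prime ∧ k % 3 = 2 then Real.log T else 0) := by
        split_ifs <;> simp [hl]
      linarith
  rw [Finset.sum_add_distrib, ← h2, ← h3] at h4
  linarith

end AP2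

open Filter Topology Finset ArithmeticFunction in
theorem p_AP2 : S_AP2 := by
  intro ε hε
  have hu : IsUnit (2 : ZMod 3) := ⟨⟨2, 2, by decide, by decide⟩, rfl⟩
  have h1 := Pool.Agent.Work.PNT70.pnt_ap (q := 3) hu
  have htot : ((Nat.totient 3 : ℕ) : ℝ)⁻¹ = 1 / 2 := by
    have : Nat.totient 3 = 2 := by decide
    rw [this]
    norm_num
  rw [htot] at h1
  have h2 := h1.eventually (lt_mem_nhds (show (1 / 3 : ℝ) < 1 / 2 by norm_num))
  have h3 := (isLittleO_log_rpow_atTop (show (0 : ℝ) < 1 / 2 by norm_num)).bound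
    (show (0 : ℝ) < 1 / 12 by norm_num)
  have h4 := (isLittleO_log_rpow_atTop hε).bound (show (0 : ℝ) < 1 / 6 by norm_num)
  obtain ⟨Y, hY⟩ := eventually_atTop.1 ((h2.and (h3.and h4)).and (eventually_ge_atTop (3 : ℝ)))
  have hY1 : 0 < max Y 1 := lt_of_lt_of_le one_pos (le_max_right _ _)
  refine ⟨1 / max Y 1, by positivity, fun T hT => ?_⟩
  have hT1 : (1 : ℝ) ≤ T := by exact_mod_cast (by omega : 1 ≤ T)
  have hT0 : (0 : ℝ) < T := by linarith
  obtain ⟨N, hN⟩ : ∃ N : ℝ, N = (((Finset.Icc 1 T).filter (fun p => p.Prime ∧ p % 3 = 2)).card : ℝ) :=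
    ⟨_, rfl⟩
  rw [← hN]
  have hpow0 : 0 ≤ (T : ℝ) ^ (1 - ε) := Real.rpow_nonneg hT0.le _
  by_cases hc : Y ≤ T
  · obtain ⟨⟨g1, g2, g3⟩, g4⟩ := hY T hc
    have hl : 0 < Real.log T := Real.log_pos (by linarith)
    rw [Real.norm_of_nonneg hl.le, Real.norm_of_nonneg (Real.rpow_nonneg hT0.le _)] at g2 g3
    rw [← Real.sqrt_eq_rpow] at g2
    have g5 := AP2.upper T (by omega)
    rw [Nat.floor_natCast, lt_div_iff₀ hT0] at g1
    rw [← hN] at g5
    have hsq : Real.sqrt T * Real.sqrt T = T := Real.mul_self_sqrt hT0.le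
    have hs0 : 0 ≤ Real.sqrt T := Real.sqrt_nonneg _
    have g6 : 2 * Real.sqrt T * Real.log T ≤ T / 6 := by nlinarith
    have g7 : (T : ℝ) / 6 ≤ N * Real.log T := by linarith
    have g8 : (T : ℝ) = (T : ℝ) ^ (1 - ε) * (T : ℝ) ^ ε := by
      rw [← Real.rpow_add hT0, sub_add_cancel, Real.rpow_one]
    have g9 : (T : ℝ) ^ (1 - ε) * Real.log T ≤ N * Real.log T := by
      calc (T : ℝ) ^ (1 - ε) * Real.log T ≤ (T : ℝ) ^ (1 - ε) * (1 / 6 * (T : ℝ) ^ ε) := by gcongr
        _ = ((T : ℝ) ^ (1 - ε) * (T : ℝ) ^ ε) / 6 := by ring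
        _ = T / 6 := by rw [← g8]
        _ ≤ _ := g7
    have g10 := le_of_mul_le_mul_right g9 hl
    have g11 : 1 / max Y 1 ≤ 1 := by
      rw [div_le_one hY1]
      exact le_max_right _ _
    nlinarith
  · rw [not_le] at hc
    have hN1 : 1 ≤ N := by
      rw [hN]
      have : 0 < ((Finset.Icc 1 T).filter (fun p => p.Prime ∧ p % 3 = 2)).card := by
        rw [Finset.card_pos]
        refine ⟨2, ?_⟩
        rw [Finset.mem_filter, Finset.mem_Icc]
        exact ⟨⟨by norm_num, hT⟩, Nat.prime_two, by norm_num⟩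
      exact_mod_cast this
    refine le_trans ?_ hN1
    rw [div_mul_eq_mul_div, one_mul, div_le_one hY1]
    calc (T : ℝ) ^ (1 - ε) ≤ (T : ℝ) ^ (1 : ℝ) := Real.rpow_le_rpow_of_exponent_le hT1 (by linarith)
      _ = T := Real.rpow_one _
      _ ≤ max Y 1 := hc.le.trans (le_max_left _ _)

end Pool.Agent.Work.MP_77c57a_h26
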