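import Pool.Agent.Work.MP_77c57a_h26.Defs

/-!
# Block XS: the number of `z` for given `x`
-/

set_option autoImplicit false

namespace Pool.Agent.Work.MP_77c57a_h26

namespace XS

/-- `x` is odd -/
theorem odd_of_sol {x y z : ℤ} (h : x ^ 3 * y ^ 2 = z ^ 3 + 2) : Odd x := by
  by_contra hx
  rw [Int.not_odd_iff_even] at hx
  obtain ⟨k, hk⟩ := hx
  have h1 := congrArg (fun t : ℤ => (t : ZMod 8)) h
  have h8 : ∀ z : ZMod 8, z ^ 3 + 2 ≠ 0 := by decide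
  apply h8 (z : ZMod 8)
  push_cast at h1
  rw [← h1, hk]
  push_cast
  have h2 : ((k : ZMod 8) + k) ^ 3 = 8 * (k : ZMod 8) ^ 3 := by ring
  have h3 : (8 : ZMod 8) = 0 := by decide
  rw [h2, h3, zero_mul, zero_mul]

/-- the residue and the quotient -/
theorem coord {n : ℕ} (hn : 0 < n) (X : ℕ) (z : ℤ) (hz : |z| ≤ (X : ℤ)) (hd : (n : ℤ) ∣ z ^ 3 + 2) :
    ∃ a s : ℕ, a < n ∧ n ∣ a ^ 3 + 2 ∧ s < 2 * (X / n) + 2 + 1 ∧
      z = (a : ℤ) + n * ((s : ℤ) - ((X / n + 1 : ℕ) : ℤ)) := by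
  have hn' : (0 : ℤ) < n := by exact_mod_cast hn
  obtain ⟨a, ha⟩ := Int.eq_ofNat_of_zero_le (Int.emod_nonneg z hn'.ne')
  have ha2 : (a : ℤ) < n := by
    rw [← ha]
    exact Int.emod_lt_of_pos z hn'
  obtain ⟨t, ht⟩ : ∃ t : ℤ, z = a + n * t := ⟨z / n, by rw [← ha]; exact (Int.emod_add_mul_ediv z n).symm⟩
  have h1 : (n : ℤ) ∣ (a : ℤ) ^ 3 + 2 := by
    have h2 : (a : ℤ) ^ 3 + 2 = (z ^ 3 + 2) - n * (t * (z ^ 2 + z * a + (a : ℤ) ^ 2)) := by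
      linear_combination (-(z ^ 2 + z * a + (a : ℤ) ^ 2)) * ht
    rw [h2]
    exact dvd_sub hd (dvd_mul_right _ _)
  obtain ⟨q, hq⟩ : ∃ q : ℕ, q = X / n := ⟨_, rfl⟩
  have hq1 : (n : ℤ) * q ≤ X := by
    have h := Nat.mul_div_le X n
    rw [← hq] at h
    exact_mod_cast h
  have hq2 : (X : ℤ) < n * q + n := by
    have h := Nat.lt_mul_div_succ X hn
    rw [← hq, Nat.mul_succ] at h
    exact_mod_cast h
  have hz2 := abs_le.1 hz
  have ha0 : (0 : ℤ) ≤ a := Int.natCast_nonneg a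
  have hlow : -(q : ℤ) - 1 ≤ t := by
    by_contra hcon
    push Not at hcon
    have h3 : t ≤ -(q : ℤ) - 2 := by omega
    have h4 := mul_le_mul_of_nonneg_left h3 hn'.le
    nlinarith [hz2.1, ht]
  have hup : t ≤ (q : ℤ) := by
    by_contra hcon
    push Not at hcon
    have h3 : (q : ℤ) + 1 ≤ t := by omega
    have h4 := mul_le_mul_of_nonneg_left h3 hn'.le
    nlinarith [hz2.2, ht]
  rw [← hq]
  refine ⟨a, (t + (q + 1)).toNat, by exact_mod_cast ha2, by exact_mod_cast h1, by omega, ?_⟩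
  have h5 : (((t + (q + 1)).toNat : ℕ) : ℤ) = t + (q + 1) := Int.toNat_of_nonneg (by omega)
  rw [h5, ht]
  push_cast
  ring

/-- the classes modulo a prime -/
theorem classes (hRES : S_RES) {x : ℤ} {n : ℕ} (hxn : (n : ℤ) = |x| ^ 3) (A : Set ℤ)
    (hA : ∀ z ∈ A, ∃ y : ℤ, x ^ 3 * y ^ 2 = z ^ 3 + 2) (W : Finset ℕ) (a K : ℤ)
    (hW : ∀ s ∈ W, a + n * ((s : ℤ) - K) ∈ A) (p : ℕ) (hp : p.Prime) (hp3 : p % 3 = 2)
    (hpx : ¬ p ∣ 2 * x.natAbs) : 2 * (W.image (fun t => t % p)).card ≤ p + 1 := by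
  classical
  have : Fact p.Prime := ⟨hp⟩
  have hpx' : ¬ (p : ℤ) ∣ 2 * x := by
    intro h
    apply hpx
    have h1 := Int.natCast_dvd.1 h
    rwa [Int.natAbs_mul] at h1
  have hn0 : (n : ZMod p) ≠ 0 := by
    intro h
    have h1 : (p : ℤ) ∣ (n : ℤ) := by
      rw [← ZMod.intCast_zmod_eq_zero_iff_dvd]
      exact_mod_cast h
    rw [hxn] at h1
    have h2 := Int.Prime.dvd_pow' hp h1
    rw [dvd_abs] at h2
    exact hpx' (Dvd.dvd.mul_left h2 2)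
  let φ : ℕ → ZMod p := fun t => (a : ZMod p) + n * ((t : ZMod p) - (K : ZMod p))
  have hφ : ∀ t : ℕ, φ (t % p) = φ t := by
    intro t
    change (a : ZMod p) + n * (((t % p : ℕ) : ZMod p) - (K : ZMod p)) = _
    rw [ZMod.natCast_mod]
  have hinj : Set.InjOn φ ((W.image (fun t => t % p) : Finset ℕ) : Set ℕ) := by
    intro u hu v hv huv
    obtain ⟨s, -, rfl⟩ := Finset.mem_image.1 (Finset.mem_coe.1 hu)
    obtain ⟨t, -, rfl⟩ := Finset.mem_image.1 (Finset.mem_coe.1 hv)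
    have h1 : (n : ZMod p) * (((s % p : ℕ) : ZMod p) - (K : ZMod p)) =
        n * (((t % p : ℕ) : ZMod p) - (K : ZMod p)) := add_left_cancel huv
    have h2 := mul_left_cancel₀ hn0 h1
    have h3 := sub_left_injective h2
    rw [ZMod.natCast_mod, ZMod.natCast_mod, ZMod.natCast_eq_natCast_iff'] at h3
    exact h3
  have h1 := Finset.card_image_of_injOn hinj
  have h2 := hRES p hp hp3 x hpx' ((W.image (fun t => t % p)).image φ) ?_
  · rwa [h1] at h2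
  · intro v hv
    obtain ⟨u, hu, rfl⟩ := Finset.mem_image.1 hv
    obtain ⟨s, hs, rfl⟩ := Finset.mem_image.1 hu
    obtain ⟨y, hy⟩ := hA _ (hW s hs)
    refine ⟨(y : ZMod p), ?_⟩
    rw [hφ]
    have h3 := congrArg (fun t : ℤ => (t : ZMod p)) hy
    push_cast at h3
    exact h3

end XS

open XS in
theorem p_XS (hROO : S_ROO) (hSQ : S_SQ) (hRES : S_RES) : S_XS := by
  classical
  intro ε hε
  obtain ⟨C₁, hC₁, h₁⟩ := hROO (ε / 6) (by positivity)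
  obtain ⟨C₂, hC₂, h₂⟩ := hSQ (ε / 2) (by positivity)
  refine ⟨C₁ * C₂ * 3 * (8 : ℝ) ^ (ε / 6) * (7 : ℝ) ^ (ε / 2), by positivity, ?_⟩
  intro X x hX hx0 hxX
  set A : Set ℤ := {z : ℤ | |z| ≤ (X : ℤ) ∧ ∃ y : ℤ, x ^ 3 * y ^ 2 = z ^ 3 + 2} with hAdef
  rcases A.eq_empty_or_nonempty with hA | ⟨z₀, hz₀⟩
  · rw [hA, Set.ncard_empty, Nat.cast_zero]
    positivity
  obtain ⟨-, y₀, hy₀⟩ := hz₀
  have hodd := odd_of_sol hy₀
  obtain ⟨n, hn⟩ : ∃ n : ℕ, n = x.natAbs ^ 3 := ⟨_, rfl⟩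
  have hn0 : 0 < n := by
    rw [hn]
    exact pow_pos (Int.natAbs_pos.2 hx0) 3
  have hnodd : Odd n := by
    rw [hn]
    exact (Int.natAbs_odd.2 hodd).pow
  have hnx : (n : ℤ) = |x| ^ 3 := by
    rw [hn, Nat.cast_pow, Int.natCast_natAbs]
  have hnr : (n : ℝ) = |(x : ℝ)| ^ 3 := by
    have h := congrArg (fun t : ℤ => (t : ℝ)) hnx
    push_cast at h
    exact h
  have hdvd : ∀ z ∈ A, (n : ℤ) ∣ z ^ 3 + 2 := by
    rintro z ⟨-, y, hy⟩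
    rw [← hy, hnx, ← abs_pow]
    exact (abs_dvd _ _).2 (dvd_mul_right _ _)
  obtain ⟨N, hN⟩ : ∃ N : ℕ, N = 2 * (X / n) + 2 := ⟨_, rfl⟩
  let R : Finset ℕ := (Finset.range n).filter (fun a => n ∣ a ^ 3 + 2)
  let W : ℕ → Finset ℕ := fun a => (Finset.range (N + 1)).filter
    (fun s : ℕ => (a : ℤ) + n * ((s : ℤ) - ((X / n + 1 : ℕ) : ℤ)) ∈ A)
  let B : Finset ℤ := R.biUnion (fun a : ℕ => (W a).image (fun s : ℕ => (a : ℤ) + n * ((s : ℤ) - ((X / n + 1 : ℕ) : ℤ))))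
  have hsub : A ⊆ (B : Set ℤ) := by
    intro z hz
    obtain ⟨a, s, ha, had, hs, hzz⟩ := coord hn0 X z hz.1 (hdvd z hz)
    rw [Finset.mem_coe, Finset.mem_biUnion]
    refine ⟨a, Finset.mem_filter.2 ⟨Finset.mem_range.2 ha, had⟩, Finset.mem_image.2 ⟨s, ?_, hzz.symm⟩⟩
    refine Finset.mem_filter.2 ⟨Finset.mem_range.2 (by rw [hN]; exact hs), ?_⟩
    rw [← hzz]
    exact hz
  have hWc : ∀ a ∈ R, ((W a).card : ℝ) ≤ C₂ * (Real.sqrt N + 1) * ((N : ℝ) + x.natAbs + 1) ^ (ε / 2) := by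
    intro a _
    refine h₂ N x.natAbs (W a) (Int.natAbs_pos.2 hx0) ?_ ?_
    · intro t ht
      exact Nat.lt_succ_iff.1 (Finset.mem_range.1 (Finset.mem_filter.1 ht).1)
    · intro p hp hp3 hpx
      exact classes hRES hnx A (fun z hz => hz.2) (W a) a ((X / n + 1 : ℕ) : ℤ)
        (fun s hs => (Finset.mem_filter.1 hs).2) p hp hp3 hpx
  have hcard : (A.ncard : ℝ) ≤ R.card * (C₂ * (Real.sqrt N + 1) * ((N : ℝ) + x.natAbs + 1) ^ (ε / 2)) := by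
    have h3 : A.ncard ≤ B.card := by
      rw [← Set.ncard_coe_finset B]
      exact Set.ncard_le_ncard hsub B.finite_toSet
    have h4 : B.card ≤ ∑ a ∈ R, (W a).card :=
      Finset.card_biUnion_le.trans (Finset.sum_le_sum fun a _ => Finset.card_image_le)
    calc (A.ncard : ℝ) ≤ ((∑ a ∈ R, (W a).card : ℕ) : ℝ) := by exact_mod_cast h3.trans h4
      _ = ∑ a ∈ R, ((W a).card : ℝ) := by push_cast; rfl
      _ ≤ ∑ _a ∈ R, (C₂ * (Real.sqrt N + 1) * ((N : ℝ) + x.natAbs + 1) ^ (ε / 2)) := Finset.sum_le_sum hWc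
      _ = _ := by rw [Finset.sum_const, nsmul_eq_mul]
  have hR : (R.card : ℝ) ≤ C₁ * (n : ℝ) ^ (ε / 6) := h₁ n hnodd
  have hX' : (1 : ℝ) ≤ X := by exact_mod_cast hX
  have hn1 : (1 : ℝ) ≤ n := by exact_mod_cast hn0
  have hxa : ((x.natAbs : ℕ) : ℝ) = |(x : ℝ)| := by
    rw [Nat.cast_natAbs, Int.cast_abs]
  have hxX' : |(x : ℝ)| ≤ X + 1 := by
    have h := hxX
    have h' : ((|x| : ℤ) : ℝ) ≤ (((X : ℤ) + 1 : ℤ) : ℝ) := by exact_mod_cast h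
    rw [Int.cast_abs] at h'
    push_cast at h'
    exact h'
  have hn2 : (n : ℝ) ≤ 8 * (X : ℝ) ^ 3 := by
    rw [hnr]
    calc |(x : ℝ)| ^ 3 ≤ ((X : ℝ) + 1) ^ 3 := pow_le_pow_left₀ (abs_nonneg _) hxX' 3
      _ ≤ (2 * (X : ℝ)) ^ 3 := pow_le_pow_left₀ (by positivity) (by linarith) 3
      _ = 8 * (X : ℝ) ^ 3 := by ring
  have hn3 : (n : ℝ) ^ (ε / 6) ≤ (8 : ℝ) ^ (ε / 6) * (X : ℝ) ^ (ε / 2) := by
    calc (n : ℝ) ^ (ε / 6) ≤ (8 * (X : ℝ) ^ 3) ^ (ε / 6) :=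
          Real.rpow_le_rpow (by positivity) hn2 (by positivity)
      _ = (8 : ℝ) ^ (ε / 6) * ((X : ℝ) ^ 3) ^ (ε / 6) := Real.mul_rpow (by norm_num) (by positivity)
      _ = (8 : ℝ) ^ (ε / 6) * (X : ℝ) ^ (ε / 2) := by
          rw [← Real.rpow_natCast (X : ℝ) 3, ← Real.rpow_mul (by positivity)]
          congr 2
          push_cast
          ring
  have hq : ((X / n : ℕ) : ℝ) ≤ (X : ℝ) / n := Nat.cast_div_le
  have hq2 : (X : ℝ) / n ≤ X := div_le_self (by positivity) hn1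
  have hN2 : (N : ℝ) ≤ 2 * ((X : ℝ) / n) + 2 := by
    rw [hN]
    push_cast
    linarith
  have hbase : (N : ℝ) + x.natAbs + 1 ≤ 7 * X := by
    rw [hxa]
    linarith
  have hpow : ((N : ℝ) + x.natAbs + 1) ^ (ε / 2) ≤ (7 : ℝ) ^ (ε / 2) * (X : ℝ) ^ (ε / 2) := by
    rw [← Real.mul_rpow (by norm_num) (by positivity)]
    exact Real.rpow_le_rpow (by positivity) hbase (by positivity)
  have hsq : Real.sqrt N + 1 ≤ 3 * (Real.sqrt ((X : ℝ) / n) + 1) := by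
    have h5 : Real.sqrt N ≤ 2 * Real.sqrt ((X : ℝ) / n) + 2 := by
      rw [Real.sqrt_le_left (by positivity)]
      have h6 := Real.sq_sqrt (show 0 ≤ (X : ℝ) / n by positivity)
      have h7 := Real.sqrt_nonneg ((X : ℝ) / n)
      nlinarith
    have h7 := Real.sqrt_nonneg ((X : ℝ) / n)
    linarith
  rw [hnr] at hsq
  have hXpow : (X : ℝ) ^ ε = (X : ℝ) ^ (ε / 2) * (X : ℝ) ^ (ε / 2) := by
    rw [← Real.rpow_add (by linarith)]
    congr 1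
    ring
  calc (A.ncard : ℝ) ≤ R.card * (C₂ * (Real.sqrt N + 1) * ((N : ℝ) + x.natAbs + 1) ^ (ε / 2)) := hcard
    _ ≤ (C₁ * ((8 : ℝ) ^ (ε / 6) * (X : ℝ) ^ (ε / 2))) *
        (C₂ * (3 * (Real.sqrt ((X : ℝ) / |(x : ℝ)| ^ 3) + 1)) * ((7 : ℝ) ^ (ε / 2) * (X : ℝ) ^ (ε / 2))) := by
        gcongr
        exact hR.trans (mul_le_mul_of_nonneg_left hn3 hC₁.le)
    _ = C₁ * C₂ * 3 * (8 : ℝ) ^ (ε / 6) * (7 : ℝ) ^ (ε / 2) * (X : ℝ) ^ ε *
        (Real.sqrt ((X : ℝ) / |(x : ℝ)| ^ 3) + 1) := by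
        rw [hXpow]
        ring

end Pool.Agent.Work.MP_77c57a_h26
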