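import Mathlib

/-!
# MP_77c57a_nt: the number of solutions of `x ^ 3 * y ^ 2 = z ^ 3 + 2` with `|z| ≤ X`

Statements of the blocks. File `B_X.lean` in this folder, `import Pool.Agent.Work.MP_77c57a_h26.Defs`,
namespace `Pool.Agent.Work.MP_77c57a_h26`, `theorem p_X (hypotheses of column uses) : S_X`,
auxiliary names in a sub-namespace `X`.
-/

set_option autoImplicit false

namespace Pool.Agent.Work.MP_77c57a_h26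

/-- the triple `(x, y, z)` of integers is a solution of `x ^ 3 * y ^ 2 = z ^ 3 + 2` -/
def IsSol (t : ℤ × ℤ × ℤ) : Prop := t.1 ^ 3 * t.2.1 ^ 2 = t.2.2 ^ 3 + 2

/-- ROO: roots of `a ^ 3 + 2` modulo odd numbers. At most 3 roots modulo an odd prime power (two roots
differ by a unit `u` with `u ^ 3 = 1`, the group of units is cyclic, `ZMod.isCyclic_units_iff`), Chinese
remainder theorem: at most `3 ^ ω(n) ≤ τ(n) ^ 2` roots, divisor bound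
`Pool.Agent.Work.MP_081200_nt.div_bound` (file MP_081200_nt/Div.lean). -/
def S_ROO : Prop := ∀ ε : ℝ, 0 < ε → ∃ C : ℝ, 0 < C ∧ ∀ n : ℕ, Odd n →
  (((Finset.range n).filter (fun a => n ∣ a ^ 3 + 2)).card : ℝ) ≤ C * (n : ℝ) ^ ε

/-- AP2: there are many primes congruent to 2 modulo 3 (`pnt_ap` in Work/PNT70/PNT.lean: the sum of
`Λ(k)` over `k ≤ T`, `k = 2 mod 3`, is `~ T / 2`; prime powers contribute at most `√T (log T) ^ 2`;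
divide by `log T`). -/
def S_AP2 : Prop := ∀ ε : ℝ, 0 < ε → ∃ c : ℝ, 0 < c ∧ ∀ T : ℕ, 2 ≤ T →
  c * (T : ℝ) ^ (1 - ε) ≤ (((Finset.Icc 1 T).filter (fun p => p.Prime ∧ p % 3 = 2)).card : ℝ)

/-- SQ: large sieve (`large_sieve_pairs_nat` in Work/MP_b29d7f_half/B_SIEVE.lean with `T = Nat.sqrt N`
and the primes `2 mod 3` up to `T` which do not divide `2 x`). -/
def S_SQ : Prop := ∀ ε : ℝ, 0 < ε → ∃ C : ℝ, 0 < C ∧ ∀ (N x : ℕ) (W : Finset ℕ), 0 < x →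
  (∀ t ∈ W, t ≤ N) →
  (∀ p : ℕ, p.Prime → p % 3 = 2 → ¬ p ∣ 2 * x → 2 * (W.image (fun t => t % p)).card ≤ p + 1) →
  (W.card : ℝ) ≤ C * (Real.sqrt N + 1) * ((N : ℝ) + x + 1) ^ ε

/-- RES: modulo a prime `p = 2 mod 3` at most half of the classes of `z` are possible for given `x`:
`v ↦ (v ^ 3 + 2) / x ^ 3` is injective, and there are `(p + 1) / 2` squares. -/
def S_RES : Prop := ∀ p : ℕ, p.Prime → p % 3 = 2 → ∀ x : ℤ, ¬ (p : ℤ) ∣ 2 * x →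
  ∀ V : Finset (ZMod p), (∀ v ∈ V, ∃ y : ZMod p, (x : ZMod p) ^ 3 * y ^ 2 = v ^ 3 + 2) →
    2 * V.card ≤ p + 1

/-- XS: the number of `z` for given `x`. -/
def S_XS : Prop := ∀ ε : ℝ, 0 < ε → ∃ C : ℝ, 0 < C ∧ ∀ (X : ℕ) (x : ℤ), 1 ≤ X → x ≠ 0 →
  |x| ≤ (X : ℤ) + 1 →
  ({z : ℤ | |z| ≤ (X : ℤ) ∧ ∃ y : ℤ, x ^ 3 * y ^ 2 = z ^ 3 + 2}.ncard : ℝ) ≤
    C * (X : ℝ) ^ ε * (Real.sqrt ((X : ℝ) / |(x : ℝ)| ^ 3) + 1)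

/-- GAP: for given `y` at most one `z` in a dyadic interval. -/
def S_GAP : Prop := ∀ y x x' z z' Z : ℤ, y ≠ 0 → x ^ 3 * y ^ 2 = z ^ 3 + 2 →
  x' ^ 3 * y ^ 2 = z' ^ 3 + 2 → 12 ≤ Z → Z ≤ |z| → |z| ≤ 2 * Z → Z ≤ |z'| → |z'| ≤ 2 * Z → z = z'

/-- YB: the number of `z` for given `y`. -/
def S_YB : Prop := ∀ (X : ℕ) (y : ℤ), 1 ≤ X → y ≠ 0 →
  {z : ℤ | |z| ≤ (X : ℤ) ∧ ∃ x : ℤ, x ^ 3 * y ^ 2 = z ^ 3 + 2}.ncard ≤ 30 + Nat.log 2 X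

/-- the solutions with `|z| ≤ X` and `|y| ≤ X ^ (3 / 5)` -/
def small (X : ℕ) : Set (ℤ × ℤ × ℤ) :=
  {t | IsSol t ∧ |t.2.2| ≤ (X : ℤ) ∧ |(t.2.1 : ℝ)| ≤ (X : ℝ) ^ (3 / 5 : ℝ)}

/-- the solutions with `|z| ≤ X` and `|y| > X ^ (3 / 5)` -/
def large (X : ℕ) : Set (ℤ × ℤ × ℤ) :=
  {t | IsSol t ∧ |t.2.2| ≤ (X : ℤ) ∧ (X : ℝ) ^ (3 / 5 : ℝ) < |(t.2.1 : ℝ)|}

/-- FA: the solutions with small `y`. -/
def S_FA : Prop := ∀ ε : ℝ, 0 < ε → ∃ C : ℝ, 0 < C ∧ ∀ X : ℕ, 1 ≤ X →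
  (small X).Finite ∧ ((small X).ncard : ℝ) ≤ C * (X : ℝ) ^ (3 / 5 + ε)

/-- FB: the solutions with large `y`. -/
def S_FB : Prop := ∀ ε : ℝ, 0 < ε → ∃ C : ℝ, 0 < C ∧ ∀ X : ℕ, 1 ≤ X →
  (large X).Finite ∧ ((large X).ncard : ℝ) ≤ C * (X : ℝ) ^ (3 / 5 + ε)

/-- The theorem. -/
def S_MAIN : Prop := ∀ ε : ℝ, 0 < ε → ∃ C : ℝ, 0 < C ∧ ∀ X : ℕ, 1 ≤ X →
  {t : ℤ × ℤ × ℤ | IsSol t ∧ |t.2.2| ≤ (X : ℤ)}.Finite ∧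
    ({t : ℤ × ℤ × ℤ | IsSol t ∧ |t.2.2| ≤ (X : ℤ)}.ncard : ℝ) ≤ C * (X : ℝ) ^ (3 / 5 + ε)

end Pool.Agent.Work.MP_77c57a_h26
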